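import Pool.Agent.W658.Cone

/-!
# The unitised cone over the Cuntz algebra is stably finite
-/

set_option autoImplicit false

open scoped InnerProductSpace CStarAlgebra ComplexOrder
open Filter Topology

noncomputable section

namespace Q89.LT

open Pool.Agent.W658.Cone

/-- a projection of norm less than one is zero -/
theorem proj_zero {E : Type} [NonUnitalCStarAlgebra E] (p : E) (h1 : star p = p) (h2 : p * p = p)
    (h3 : ‖p‖ < 1) : p = 0 := by
  have h4 : ‖p‖ * ‖p‖ = ‖p‖ := by
    rw [← CStarRing.norm_star_mul_self, h1, h2]
  have h5 : ‖p‖ * (1 - ‖p‖) = 0 := by linarith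
  rcases mul_eq_zero.1 h5 with h | h
  · exact norm_eq_zero.1 h
  · linarith

/-- evaluation of matrices -/
def evM (n : ℕ) (t : unitInterval) (v : Matrix (Fin n) (Fin n) CA) :
    CStarMatrix (Fin n) (Fin n) BH :=
  CStarMatrix.ofMatrix (v.map (ev t))

theorem evM_apply (n : ℕ) (t : unitInterval) (v : Matrix (Fin n) (Fin n) CA) (i j : Fin n) :
    evM n t v i j = ev t (v i j) := rfl

theorem ev_one (t : unitInterval) : ev t 1 = 1 := rfl

theorem evM_mul (n : ℕ) (t : unitInterval) (v w : Matrix (Fin n) (Fin n) CA) :
    evM n t (v * w) = evM n t v * evM n t w := by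
  apply CStarMatrix.ext
  intro i j
  rw [evM_apply, CStarMatrix.mul_apply, Matrix.mul_apply, map_sum]
  refine Finset.sum_congr rfl fun k _ => ?_
  rw [map_mul]
  rfl

theorem evM_star (n : ℕ) (t : unitInterval) (v : Matrix (Fin n) (Fin n) CA) :
    evM n t (star v) = star (evM n t v) := by
  apply CStarMatrix.ext
  intro i j
  rw [evM_apply, CStarMatrix.star_apply, Matrix.star_apply, map_star]
  rfl

theorem evM_one (n : ℕ) (t : unitInterval) : evM n t 1 = 1 := by
  apply CStarMatrix.ext
  intro i j
  rw [evM_apply, CStarMatrix.one_apply, Matrix.one_apply]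
  split_ifs
  · exact ev_one t
  · exact map_zero _

theorem evM_cont (n : ℕ) (v : Matrix (Fin n) (Fin n) CA) : Continuous fun t => evM n t v := by
  have h : Continuous fun t : unitInterval => (fun i j => ev t (v i j) : Fin n → Fin n → BH) := by
    refine continuous_pi fun i => continuous_pi fun j => ?_
    exact ((v i j : CA) : CB).continuous
  exact h

/-- scalars at zero -/
theorem exists_scal (a : CA) : ∃ c : ℂ, ev 0 a = c • (1 : BH) := a.2.2

theorem stablyFinite (n : ℕ) (v : Matrix (Fin n) (Fin n) CA) (hv : star v * v = 1) :
    v * star v = 1 := by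
  obtain ⟨V, hV⟩ : ∃ V : unitInterval → CStarMatrix (Fin n) (Fin n) BH, V = fun t => evM n t v :=
    ⟨_, rfl⟩
  have hVt : ∀ t, V t = evM n t v := fun t => by rw [hV]
  have hV1 : ∀ t, star (V t) * V t = 1 := by
    intro t
    rw [hVt, ← evM_star, ← evM_mul, hv, evM_one]
  obtain ⟨e, he⟩ : ∃ e : unitInterval → CStarMatrix (Fin n) (Fin n) BH,
      e = fun t => 1 - V t * star (V t) := ⟨_, rfl⟩
  have het : ∀ t, e t = 1 - V t * star (V t) := fun t => by rw [he]
  have hes : ∀ t, star (e t) = e t := by
    intro t
    rw [het, star_sub, star_one, star_mul, star_star]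
  have hee : ∀ t, e t * e t = e t := by
    intro t
    have h1 : V t * star (V t) * (V t * star (V t)) = V t * star (V t) := by
      rw [mul_assoc, ← mul_assoc (star (V t)), hV1, one_mul]
    rw [het, mul_sub, sub_mul, sub_mul, h1]
    simp
  have hcont : Continuous e := by
    rw [he]
    have h1 : Continuous V := by
      rw [hV]
      exact evM_cont n v
    exact continuous_const.sub (h1.mul h1.star)
  -- at zero
  have h0 : e 0 = 0 := by
    choose c hc using fun p : Fin n × Fin n => exists_scal (v p.1 p.2)
    obtain ⟨M, hM⟩ : ∃ M : Matrix (Fin n) (Fin n) ℂ, M = fun i j => c (i, j) := ⟨_, rfl⟩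
    have hMij : ∀ i j, V 0 i j = M i j • (1 : BH) := by
      intro i j
      rw [hVt, evM_apply, hc (i, j), hM]
    have hMM : star M * M = 1 := by
      ext i j
      have h1 := congrArg (fun X : CStarMatrix (Fin n) (Fin n) BH => X i j) (hV1 0)
      simp only [CStarMatrix.mul_apply, CStarMatrix.star_apply, CStarMatrix.one_apply] at h1
      have h2 : ∑ k, star (V 0 k i) * V 0 k j = ((star M * M) i j) • (1 : BH) := by
        rw [Matrix.mul_apply, Finset.sum_smul]
        refine Finset.sum_congr rfl fun k _ => ?_
        rw [hMij, hMij, star_smul, star_one, smul_mul_smul_comm, one_mul, Matrix.star_apply]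
      rw [h2] at h1
      have h3 : ((star M * M) i j) • (1 : BH) = ((1 : Matrix (Fin n) (Fin n) ℂ) i j) • (1 : BH) := by
        rw [h1, Matrix.one_apply]
        split_ifs <;> simp
      have hne : (1 : BH) ≠ 0 := by
        intro h
        have h4 : (1 : BH) xi = 0 := by rw [h]; rfl
        have h5 : xi = 0 := h4
        have h6 := norm_xi
        rw [h5, norm_zero] at h6
        exact zero_ne_one h6
      exact smul_left_injective ℂ hne h3
    have hMM' : M * star M = 1 := mul_eq_one_comm.1 hMM
    rw [het]
    apply CStarMatrix.ext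
    intro i j
    have h2 : (V 0 * star (V 0)) i j = ((M * star M) i j) • (1 : BH) := by
      rw [CStarMatrix.mul_apply, Matrix.mul_apply, Finset.sum_smul]
      refine Finset.sum_congr rfl fun k _ => ?_
      rw [CStarMatrix.star_apply, hMij, hMij, star_smul, star_one, smul_mul_smul_comm, one_mul,
        Matrix.star_apply]
    rw [CStarMatrix.sub_apply, h2, hMM', CStarMatrix.one_apply, Matrix.one_apply]
    split_ifs <;> simp
  have hall : ∀ t, e t = 0 := by
    have hcl : IsClopen {t | e t = 0} := by
      constructor
      · exact isClosed_eq hcont continuous_const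
      · have h1 : {t | e t = 0} = {t | ‖e t‖ < 1} := by
          ext t
          constructor
          · intro h
            have h' : e t = 0 := h
            show ‖e t‖ < 1
            rw [h', norm_zero]
            exact one_pos
          · intro h
            exact proj_zero _ (hes t) (hee t) h
        rw [h1]
        exact isOpen_lt hcont.norm continuous_const
    have h2 := hcl.eq_univ ⟨0, h0⟩
    intro t
    have : t ∈ {t | e t = 0} := by rw [h2]; trivial
    exact this
  refine Matrix.ext fun i j => ?_
  apply CA_ext
  intro t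
  have h1 := hall t
  rw [het, hVt, ← evM_star, ← evM_mul, sub_eq_zero, ← evM_one n t] at h1
  have h2 := congrArg (fun X : CStarMatrix (Fin n) (Fin n) BH => X i j) h1
  exact h2.symm

end Q89.LT
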