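import Pool.Agent.TH496.EI_Irr

/-!
# Irreducible representations with a maximal kernel

The construction follows `Pool.Agent.TH496.EI_Irr`.
-/

set_option autoImplicit false

open scoped ComplexOrder InnerProductSpace
open UniformSpace Completion

noncomputable section

namespace Q89.LT

open Pool.Agent.W658.Irrep Pool.Agent.TH496.EIirr

universe u

variable {C : Type u} [CStarAlgebra C]

/-- proper self-adjoint two-sided ideals -/
structure PI (M : Submodule ℂ C) : Prop where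
  left : ∀ a, ∀ x ∈ M, a * x ∈ M
  right : ∀ a, ∀ x ∈ M, x * a ∈ M
  star_mem : ∀ x ∈ M, star x ∈ M
  one : (1 : C) ∉ M

theorem PI.dist {M : Submodule ℂ C} (h : PI M) (x : C) (hx : x ∈ M) : 1 ≤ ‖1 - x‖ := by
  by_contra hlt
  push Not at hlt
  obtain ⟨u, hu⟩ : ∃ u : Cˣ, (u : C) = x := ⟨Units.oneSub (1 - x) hlt, by simp⟩
  apply h.one
  have := h.right (↑u⁻¹ : C) x hx
  rwa [← hu, Units.mul_inv] at this

theorem PI.closure {M : Submodule ℂ C} (h : PI M) : PI M.topologicalClosure where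
  left a x hx := by
    have h1 : Set.MapsTo (fun y => a * y) (M : Set C) (M : Set C) := fun y hy => h.left a y hy
    exact h1.closure (by fun_prop) hx
  right a x hx := by
    have h1 : Set.MapsTo (fun y => y * a) (M : Set C) (M : Set C) := fun y hy => h.right a y hy
    exact h1.closure (by fun_prop) hx
  star_mem x hx := by
    have h1 : Set.MapsTo (fun y => star y) (M : Set C) (M : Set C) := fun y hy => h.star_mem y hy
    exact h1.closure (by fun_prop) hx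
  one hx := by
    have h1 : (1 : C) ∈ _root_.closure (M : Set C) := hx
    obtain ⟨y, hy, hy1⟩ := Metric.mem_closure_iff.1 h1 1 one_pos
    rw [dist_eq_norm] at hy1
    exact absurd (h.dist y hy) (not_le.2 hy1)

theorem exists_max [Nontrivial C] : ∃ M : Submodule ℂ C, PI M ∧ IsClosed (M : Set C) ∧
    ∀ N, PI N → M ≤ N → N ≤ M := by
  obtain ⟨M, -, hM⟩ := zorn_le_nonempty₀ {M : Submodule ℂ C | PI M} (by
    intro c hc hch y hy
    have hdir : DirectedOn (· ≤ ·) c := hch.directedOn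
    have hmem : ∀ z, z ∈ sSup c ↔ ∃ y ∈ c, z ∈ y := fun z =>
      Submodule.mem_sSup_of_directed ⟨y, hy⟩ hdir
    refine ⟨sSup c, ?_, fun z hz => le_sSup hz⟩
    constructor
    · intro a x hx
      rw [hmem] at hx ⊢
      obtain ⟨N, hN, hxN⟩ := hx
      exact ⟨N, hN, (hc hN).left a x hxN⟩
    · intro a x hx
      rw [hmem] at hx ⊢
      obtain ⟨N, hN, hxN⟩ := hx
      exact ⟨N, hN, (hc hN).right a x hxN⟩
    · intro x hx
      rw [hmem] at hx ⊢
      obtain ⟨N, hN, hxN⟩ := hx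
      exact ⟨N, hN, (hc hN).star_mem x hxN⟩
    · intro hx
      rw [hmem] at hx
      obtain ⟨N, hN, hxN⟩ := hx
      exact (hc hN).one hxN) ⊥ (by
    constructor
    · intro a x hx
      rw [Submodule.mem_bot] at hx ⊢
      rw [hx, mul_zero]
    · intro a x hx
      rw [Submodule.mem_bot] at hx ⊢
      rw [hx, zero_mul]
    · intro x hx
      rw [Submodule.mem_bot] at hx ⊢
      rw [hx, star_zero]
    · rw [Submodule.mem_bot]
      exact one_ne_zero)
  have hPI : PI M := hM.1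
  refine ⟨M, hPI, ?_, fun N hN hle => hM.2 hN hle⟩
  have h1 := hM.2 hPI.closure M.le_topologicalClosure
  have h2 : M = M.topologicalClosure := le_antisymm M.le_topologicalClosure h1
  rw [h2]
  exact M.isClosed_topologicalClosure

/-- the states which vanish on `M` -/
def StM (M : Submodule ℂ C) : Set (C → ℂ) :=
  {f | (∀ a b, f (a + b) = f a + f b) ∧ (∀ (c : ℂ) a, f (c • a) = c * f a) ∧
    (∀ a, 0 ≤ f (star a * a)) ∧ f 1 = 1 ∧ (∀ a, ‖f a‖ ≤ ‖a‖) ∧ ∀ x ∈ M, f x = 0}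

theorem StM_nonempty [Nontrivial C] {M : Submodule ℂ C} (h : PI M) (hcl : IsClosed (M : Set C)) :
    (StM M).Nonempty := by
  have : IsClosed (M : Set C) := hcl
  obtain ⟨g, hg, hg1⟩ := exists_dual_vector'' ℂ (Submodule.Quotient.mk (1 : C) : C ⧸ M)
  have hnle : ∀ x : C, ‖(Submodule.Quotient.mk x : C ⧸ M)‖ ≤ ‖x‖ := fun x =>
    Submodule.Quotient.norm_mk_le M x
  have hn1 : ‖(Submodule.Quotient.mk (1 : C) : C ⧸ M)‖ = 1 := by
    apply le_antisymm
    · exact (hnle 1).trans (by rw [CStarRing.norm_one])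
    · apply le_of_forall_pos_le_add
      intro ε hε
      obtain ⟨m, hm, hm1⟩ := Submodule.Quotient.norm_mk_lt (Submodule.Quotient.mk (1 : C) : C ⧸ M) hε
      have h2 : 1 - m ∈ M := by
        have := (Submodule.Quotient.eq M).1 hm.symm
        exact this
      have h3 := h.dist _ h2
      rw [sub_sub_cancel] at h3
      linarith
  have hgx : ∀ x, ‖g x‖ ≤ ‖x‖ := fun x => by simpa using g.le_of_opNorm_le hg x
  obtain ⟨l, hl⟩ : ∃ l : C →L[ℂ] ℂ, ∀ x, l x = g (Submodule.Quotient.mk x) := by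
    refine ⟨LinearMap.mkContinuous (g.toLinearMap.comp M.mkQ) 1 fun x => ?_, fun x => rfl⟩
    rw [one_mul]
    exact (hgx _).trans (hnle x)
  have hlx : ∀ x, ‖l x‖ ≤ ‖x‖ := fun x => by
    rw [hl]
    exact (hgx _).trans (hnle x)
  have hl1 : l 1 = 1 := by
    rw [hl, hg1, hn1]
    rfl
  have hln : ‖l‖ = 1 := by
    apply le_antisymm
    · exact l.opNorm_le_bound zero_le_one fun x => by rw [one_mul]; exact hlx x
    · have := l.le_opNorm 1
      rw [hl1, norm_one, CStarRing.norm_one, mul_one] at this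
      exact this
  refine ⟨l, fun a b => map_add l a b, fun c a => by rw [map_smul, smul_eq_mul],
    fun a => pos_of_norm l hln hl1 a, hl1, hlx, fun x hx => ?_⟩
  rw [hl, (Submodule.Quotient.mk_eq_zero M).2 hx, map_zero]

theorem StM_compact (M : Submodule ℂ C) : IsCompact (StM M) := by
  have h1 : IsCompact (Set.pi Set.univ (fun a : C => Metric.closedBall (0 : ℂ) ‖a‖)) :=
    isCompact_univ_pi fun a => isCompact_closedBall _ _
  refine h1.of_isClosed_subset ?_ ?_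
  · have h : StM M = {f : C → ℂ | ∀ a b, f (a + b) = f a + f b} ∩
        {f : C → ℂ | ∀ (c : ℂ) a, f (c • a) = c * f a} ∩
        {f : C → ℂ | ∀ a, 0 ≤ f (star a * a)} ∩
        {f : C → ℂ | f 1 = 1} ∩ {f : C → ℂ | ∀ a, ‖f a‖ ≤ ‖a‖} ∩
        {f : C → ℂ | ∀ x ∈ M, f x = 0} := by
      ext f
      constructor
      · rintro ⟨h1, h2, h3, h4, h5, h6⟩
        exact ⟨⟨⟨⟨⟨h1, h2⟩, h3⟩, h4⟩, h5⟩, h6⟩
      · rintro ⟨⟨⟨⟨⟨h1, h2⟩, h3⟩, h4⟩, h5⟩, h6⟩
        exact ⟨h1, h2, h3, h4, h5, h6⟩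
    rw [h]
    have hev : ∀ a : C, Continuous (fun f : C → ℂ => f a) := fun a => continuous_apply a
    refine IsClosed.inter (IsClosed.inter (IsClosed.inter (IsClosed.inter
      (IsClosed.inter ?_ ?_) ?_) ?_) ?_) ?_
    · simp only [Set.ofPred_forall]
      exact isClosed_iInter fun a => isClosed_iInter fun b =>
        isClosed_eq (hev _) ((hev a).add (hev b))
    · simp only [Set.ofPred_forall]
      exact isClosed_iInter fun c => isClosed_iInter fun a =>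
        isClosed_eq (hev _) (continuous_const.mul (hev a))
    · simp only [Set.ofPred_forall]
      exact isClosed_iInter fun a => isClosed_Ici.preimage (hev (star a * a))
    · exact isClosed_eq (hev _) continuous_const
    · simp only [Set.ofPred_forall]
      exact isClosed_iInter fun a => isClosed_le (hev a).norm continuous_const
    · simp only [Set.ofPred_forall]
      exact isClosed_iInter fun a => isClosed_iInter fun _ => isClosed_eq (hev a) continuous_const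
  · intro f hf a _
    rw [mem_closedBall_zero_iff]
    exact hf.2.2.2.2.1 a

section abs

variable {K : Type u} [NormedAddCommGroup K] [InnerProductSpace ℂ K] [CompleteSpace K]
  (ρ : C →⋆ₙₐ[ℂ] (K →L[ℂ] K)) (ξ : K)

theorem scalar_posM {M : Submodule ℂ C} {φ : C → ℂ} (hφ : φ ∈ Set.extremePoints ℝ (StM M))
    (hρ1 : ρ 1 = 1) (hρM : ∀ x ∈ M, ρ x = 0)
    (hξ : ‖ξ‖ = 1) (hdense : ∀ x y : K, (∀ a : C, ⟪x, ρ a ξ⟫_ℂ = ⟪y, ρ a ξ⟫_ℂ) → x = y)
    (hφξ : ∀ a, φ a = ⟪ξ, ρ a ξ⟫_ℂ) (T : K →L[ℂ] K) (hTa : ∀ a x, T (ρ a x) = ρ a (T x))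
    (hT0 : ∀ x, 0 ≤ ⟪T x, x⟫_ℂ) (hT1 : ∀ x, 0 ≤ ⟪x - T x, x⟫_ℂ) :
    ∃ t : ℂ, T = t • (1 : K →L[ℂ] K) := by
  obtain ⟨-, hext⟩ := mem_extremePoints.mp hφ
  obtain ⟨R, hR⟩ : ∃ R : K →L[ℂ] K, R = 1 - T := ⟨_, rfl⟩
  have hRx : ∀ x, R x = x - T x := fun x => by rw [hR]; rfl
  have hR0 : ∀ x, 0 ≤ ⟪R x, x⟫_ℂ := fun x => by rw [hRx]; exact hT1 x
  have hRa : ∀ a x, R (ρ a x) = ρ a (R x) := by
    intro a x
    rw [hRx, hRx, map_sub, hTa]
  obtain ⟨s1, hs1⟩ : ∃ s1 : ℝ, s1 = (⟪T ξ, ξ⟫_ℂ).re := ⟨_, rfl⟩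
  have hs1C : ⟪T ξ, ξ⟫_ℂ = (s1 : ℂ) := by
    have := (Complex.le_def.1 (hT0 ξ)).2
    apply Complex.ext
    · rw [Complex.ofReal_re, hs1]
    · rw [Complex.ofReal_im]
      exact this.symm
  have hs2C : ⟪R ξ, ξ⟫_ℂ = ((1 - s1 : ℝ) : ℂ) := by
    rw [hRx, inner_sub_left, hs1C, inner_self_eq_norm_sq_to_K, hξ]
    push_cast
    ring
  have hs10 : 0 ≤ s1 := by
    have := hT0 ξ
    rw [hs1C] at this
    exact Complex.zero_le_real.1 this
  have hs20 : 0 ≤ 1 - s1 := by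
    have := hR0 ξ
    rw [hs2C] at this
    exact Complex.zero_le_real.1 this
  -- it is enough to know `T ξ`
  have hfin : ∀ t : ℝ, T ξ = (t : ℂ) • ξ → ∃ t : ℂ, T = t • (1 : K →L[ℂ] K) := by
    intro t ht
    refine ⟨t, ?_⟩
    ext z
    apply hdense
    intro a
    have e1 : ((t : ℂ) • (1 : K →L[ℂ] K)) z = (t : ℂ) • z := rfl
    rw [e1, symm_of_pos T hT0, hTa, ht, map_smul, inner_smul_right, inner_smul_left,
      Complex.conj_ofReal]
  by_cases h0 : s1 = 0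
  · refine hfin 0 ?_
    rw [Complex.ofReal_zero, zero_smul]
    apply zero_of_pos T hT0
    rw [hs1C, h0, Complex.ofReal_zero]
  by_cases h1 : 1 - s1 = 0
  · refine hfin 1 ?_
    have h2 := zero_of_pos R hR0 ξ (by rw [hs2C, h1, Complex.ofReal_zero])
    rw [hRx] at h2
    rw [Complex.ofReal_one, one_smul]
    exact (sub_eq_zero.1 h2).symm
  have hp1 : 0 < s1 := lt_of_le_of_ne hs10 (Ne.symm h0)
  have hp2 : 0 < 1 - s1 := lt_of_le_of_ne hs20 (Ne.symm h1)
  have hc1 : (s1 : ℂ) ≠ 0 := by exact_mod_cast hp1.ne'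
  have hc2 : ((1 - s1 : ℝ) : ℂ) ≠ 0 := by exact_mod_cast hp2.ne'
  obtain ⟨x1, x2, x3, x4, x5⟩ := key2 ρ ξ hρ1 T hTa hT0 s1 hp1 hs1C
  obtain ⟨y1, y2, y3, y4, y5⟩ := key2 ρ ξ hρ1 R hRa hR0 (1 - s1) hp2 hs2C
  have hcomb : ∀ a, (s1 : ℂ) * ((s1 : ℂ)⁻¹ * ⟪T ξ, ρ a ξ⟫_ℂ) +
      ((1 - s1 : ℝ) : ℂ) * (((1 - s1 : ℝ) : ℂ)⁻¹ * ⟪R ξ, ρ a ξ⟫_ℂ) = φ a := by
    intro a
    rw [mul_inv_cancel_left₀ hc1, mul_inv_cancel_left₀ hc2, hφξ, hRx, inner_sub_left]
    ring
  have hz : ∀ (c : ℂ) (v : K), ∀ x ∈ M, c * ⟪v, ρ x ξ⟫_ℂ = 0 := by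
    intro c v x hx
    rw [hρM x hx]
    show c * ⟪v, (0 : K)⟫_ℂ = 0
    rw [inner_zero_right, mul_zero]
  have hseg : φ ∈ openSegment ℝ (fun a => (s1 : ℂ)⁻¹ * ⟪T ξ, ρ a ξ⟫_ℂ)
      (fun a => ((1 - s1 : ℝ) : ℂ)⁻¹ * ⟪R ξ, ρ a ξ⟫_ℂ) := by
    refine ⟨s1, 1 - s1, hp1, hp2, by ring, ?_⟩
    funext a
    rw [← hcomb a]
    simp only [Pi.add_apply, Pi.smul_apply, Complex.real_smul]
  have h6 := (hext _ ⟨x1, x2, x3, x4, x5, hz _ _⟩ _ ⟨y1, y2, y3, y4, y5, hz _ _⟩ hseg).1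
  refine hfin s1 ?_
  apply hdense
  intro a
  have h7 := congrFun h6 a
  rw [inner_smul_left, Complex.conj_ofReal, ← hφξ, ← h7, mul_inv_cancel_left₀ hc1]

end abs

/-- a representation with trivial commutant which vanishes on `M` -/
theorem exists_repM [Nontrivial C] {M : Submodule ℂ C} (hM : PI M) (hcl : IsClosed (M : Set C)) :
    ∃ (K : Type u) (_ : NormedAddCommGroup K)
    (_ : InnerProductSpace ℂ K) (_ : CompleteSpace K) (ρ : C →⋆ₙₐ[ℂ] (K →L[ℂ] K)) (ξ : K),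
    ρ 1 = 1 ∧ ‖ξ‖ = 1 ∧ (∀ x ∈ M, ρ x = 0) ∧
    ∀ T : K →L[ℂ] K, (∀ a, T * ρ a = ρ a * T) → ∃ t : ℂ, T = t • (1 : K →L[ℂ] K) := by
  obtain ⟨φ, hφ⟩ := (StM_compact M).extremePoints_nonempty (StM_nonempty hM hcl)
  obtain ⟨⟨hadd, hsm, hpos, hone, hn, hY⟩, hext⟩ := mem_extremePoints.mp hφ
  let _ := CStarAlgebra.spectralOrder C
  have _ := CStarAlgebra.spectralOrderedRing C
  let f : C →ₚ[ℂ] ℂ := PositiveLinearMap.mk₀
    ({ toFun := φ, map_add' := hadd, map_smul' := fun c a => hsm c a } : C →ₗ[ℂ] ℂ) (by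
      intro x hx
      obtain ⟨y, rfl⟩ := CStarAlgebra.nonneg_iff_eq_star_mul_self.1 hx
      exact hpos y)
  have hf : ∀ x, f x = φ x := fun x => rfl
  let ρ : C →⋆ₙₐ[ℂ] (f.GNS →L[ℂ] f.GNS) := f.gnsNonUnitalStarAlgHom
  let ξ : f.GNS := (f.toPreGNS (1 : C) : f.GNS)
  have hρ : ∀ a b : C, ρ a (f.toPreGNS b : f.GNS) = (f.toPreGNS (a * b) : f.GNS) := by
    intro a b
    show f.gnsNonUnitalStarAlgHom a (f.toPreGNS b : f.GNS) = _
    rw [PositiveLinearMap.gnsNonUnitalStarAlgHom_apply_coe]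
    rfl
  have hin : ∀ a b : C, ⟪(f.toPreGNS a : f.GNS), (f.toPreGNS b : f.GNS)⟫_ℂ = φ (star a * b) := by
    intro a b
    rw [UniformSpace.Completion.inner_coe, PositiveLinearMap.preGNS_inner_def]
    rfl
  have hρξ : ∀ a, ρ a ξ = (f.toPreGNS a : f.GNS) := by
    intro a
    rw [hρ, mul_one]
  have hdense : ∀ x y : f.GNS, (∀ a : C, ⟪x, ρ a ξ⟫_ℂ = ⟪y, ρ a ξ⟫_ℂ) → x = y := by
    intro x y h
    have h2 : ∀ z : f.GNS, ⟪x, z⟫_ℂ = ⟪y, z⟫_ℂ := by
      intro z
      induction z using UniformSpace.Completion.induction_on with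
      | hp => exact isClosed_eq (by fun_prop) (by fun_prop)
      | ih z =>
        have := h (f.ofPreGNS z)
        rw [hρξ] at this
        exact this
    exact ext_inner_right ℂ h2
  have hρ1 : ρ 1 = 1 := by
    ext z
    induction z using UniformSpace.Completion.induction_on with
    | hp => exact isClosed_eq (by fun_prop) (by fun_prop)
    | ih z =>
      have := hρ 1 (f.ofPreGNS z)
      rw [one_mul] at this
      exact this
  have hξ : ‖ξ‖ = 1 := by
    have h2 := hin 1 1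
    rw [star_one, one_mul, hone] at h2
    have h3 : ⟪ξ, ξ⟫_ℂ = 1 := h2
    rw [inner_self_eq_norm_sq_to_K] at h3
    have h4 : ((‖ξ‖ ^ 2 : ℝ) : ℂ) = ((1 : ℝ) : ℂ) := by
      push_cast
      exact h3
    have h5 : ‖ξ‖ ^ 2 = 1 := Complex.ofReal_injective h4
    nlinarith [norm_nonneg ξ]
  have hφξ : ∀ a, φ a = ⟪ξ, ρ a ξ⟫_ℂ := by
    intro a
    rw [hρξ, hin, star_one, one_mul]
  have hρM : ∀ x ∈ M, ρ x = 0 := by
    intro x hx
    ext z
    induction z using UniformSpace.Completion.induction_on with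
    | hp => exact isClosed_eq (by fun_prop) (by fun_prop)
    | ih z =>
      show ρ x (f.toPreGNS (f.ofPreGNS z) : f.GNS) = 0
      rw [hρ]
      apply hdense
      intro a
      rw [hρξ, hin, inner_zero_left, star_mul, mul_assoc]
      exact hY _ (hM.left _ _ (hM.right _ _ (hM.star_mem _ hx)))
  refine ⟨f.GNS, inferInstance, inferInstance, inferInstance, ρ, ξ, hρ1, hξ, hρM, fun T hT => ?_⟩
  exact scalar_all ρ (fun T hTa hT0 hT1 =>
    scalar_posM ρ ξ hφ hρ1 hρM hξ hdense hφξ T hTa hT0 hT1) T hT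

/-- invariant subspaces -/
theorem irred_of_comm {K : Type u} [NormedAddCommGroup K] [InnerProductSpace ℂ K] [CompleteSpace K]
    (ρ : C →⋆ₙₐ[ℂ] (K →L[ℂ] K))
    (h : ∀ T : K →L[ℂ] K, (∀ a, T * ρ a = ρ a * T) → ∃ t : ℂ, T = t • (1 : K →L[ℂ] K))
    (U : Submodule ℂ K) (hU : IsClosed (U : Set K)) (hinv : ∀ a, ∀ x ∈ U, ρ a x ∈ U) :
    U = ⊥ ∨ U = ⊤ := by
  have hc : CompleteSpace U := hU.completeSpace_coe
  have hperp : ∀ a, ∀ x ∈ Uᗮ, ρ a x ∈ Uᗮ := by
    intro a x hx y hy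
    have h1 : ⟪y, ρ a x⟫_ℂ = ⟪ρ (star a) y, x⟫_ℂ := by
      rw [map_star, ContinuousLinearMap.star_eq_adjoint, ContinuousLinearMap.adjoint_inner_left]
    rw [h1]
    exact hx _ (hinv _ _ hy)
  obtain ⟨t, ht⟩ := h U.starProjection (by
    intro a
    ext x
    show U.starProjection (ρ a x) = ρ a (U.starProjection x)
    have h1 : x = U.starProjection x + (x - U.starProjection x) := by abel
    have h2 : x - U.starProjection x ∈ Uᗮ := U.sub_starProjection_mem_orthogonal x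
    have h3 : ρ a x = ρ a (U.starProjection x) + ρ a (x - U.starProjection x) := by
      rw [← map_add]
      congr 1
    rw [h3, map_add, Submodule.starProjection_eq_self_iff.2 (hinv _ _ (Submodule.starProjection_apply_mem U x)),
      (Submodule.starProjection_apply_eq_zero_iff U).2 (hperp _ _ h2), add_zero])
  by_cases hb : U = ⊥
  · exact Or.inl hb
  right
  obtain ⟨y, hy, hy0⟩ := Submodule.exists_mem_ne_zero_of_ne_bot hb
  have h1 : U.starProjection y = y := Submodule.starProjection_eq_self_iff.2 hy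
  rw [ht] at h1
  have h2 : t • y = y := h1
  have h3 : t = 1 := by
    have : (t - 1) • y = 0 := by rw [sub_smul, one_smul, h2, sub_self]
    rcases smul_eq_zero.1 this with h | h
    · exact sub_eq_zero.1 h
    · exact absurd h hy0
  rw [eq_top_iff]
  intro x _
  apply Submodule.starProjection_eq_self_iff.1
  rw [ht, h3]
  show (1 : ℂ) • x = x
  rw [one_smul]

end Q89.LT
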