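import Pool.Agent.Q89.LT.Max

/-!
# Algebras with two almost orthogonal almost isometries are not of type I
-/

set_option autoImplicit false

open scoped ComplexOrder InnerProductSpace

noncomputable section

namespace Q89.LT

universe u

/-- finite dimensional Hilbert spaces do not have two bounded below operators with almost
orthogonal ranges -/
theorem no_two {K : Type u} [NormedAddCommGroup K] [InnerProductSpace ℂ K] [CompleteSpace K]
    [FiniteDimensional ℂ K] (X Y : K →L[ℂ] K) (c δ : ℝ) (hc : 0 < c) (hδ : δ < c ^ 2)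
    (hX : ∀ v, c * ‖v‖ ≤ ‖X v‖) (hY : ∀ v, c * ‖v‖ ≤ ‖Y v‖)
    (hXY : ∀ v, ‖star X (Y v)‖ ≤ δ * ‖v‖) (v : K) : v = 0 := by
  by_contra hv
  have hv0 : 0 < ‖v‖ := norm_pos_iff.2 hv
  have hinj : Function.Injective X.toLinearMap := by
    rw [← LinearMap.ker_eq_bot, LinearMap.ker_eq_bot']
    intro m hm
    have h1 := hX m
    have h2 : X m = 0 := hm
    rw [h2, norm_zero] at h1
    have h3 : ‖m‖ ≤ 0 := by
      by_contra h
      push Not at h
      nlinarith
    exact norm_le_zero_iff.1 h3
  obtain ⟨u, hu⟩ := LinearMap.surjective_of_injective hinj (Y v)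
  have hu' : X u = Y v := hu
  have h1 : ‖Y v‖ ^ 2 ≤ ‖u‖ * (δ * ‖v‖) := by
    have e1 : ⟪u, star X (Y v)⟫_ℂ = ⟪Y v, Y v⟫_ℂ := by
      rw [ContinuousLinearMap.star_eq_adjoint, ContinuousLinearMap.adjoint_inner_right, hu']
    have e2 : ‖⟪Y v, Y v⟫_ℂ‖ = ‖Y v‖ ^ 2 := by
      rw [inner_self_eq_norm_sq_to_K]
      simp
    rw [← e2, ← e1]
    exact (norm_inner_le_norm _ _).trans (mul_le_mul_of_nonneg_left (hXY v) (norm_nonneg _))
  have h2 : c * ‖u‖ ≤ ‖Y v‖ := by
    rw [← hu']
    exact hX u
  have h3 := hY v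
  have h4 : 0 < ‖Y v‖ := by nlinarith
  have h5 : 0 ≤ δ := by
    have := (norm_nonneg _).trans (hXY v)
    by_contra h
    push Not at h
    nlinarith
  have h6 : c * ‖Y v‖ ^ 2 ≤ ‖Y v‖ * (δ * ‖v‖) := by
    calc c * ‖Y v‖ ^ 2 ≤ c * (‖u‖ * (δ * ‖v‖)) := mul_le_mul_of_nonneg_left h1 hc.le
      _ = (c * ‖u‖) * (δ * ‖v‖) := by ring
      _ ≤ ‖Y v‖ * (δ * ‖v‖) := mul_le_mul_of_nonneg_right h2 (by positivity)
  have h7 : c * ‖Y v‖ ≤ δ * ‖v‖ := by
    have : ‖Y v‖ * (c * ‖Y v‖) ≤ ‖Y v‖ * (δ * ‖v‖) := by nlinarith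
    exact le_of_mul_le_mul_left this h4
  have h8 : c * (c * ‖v‖) ≤ δ * ‖v‖ := (mul_le_mul_of_nonneg_left h3 hc.le).trans h7
  have h9 : c ^ 2 ≤ δ := by
    have : c ^ 2 * ‖v‖ ≤ δ * ‖v‖ := by nlinarith
    exact le_of_mul_le_mul_right this hv0
  linarith

/-- the elements which a representation maps to operators of finite rank -/
def FR {C : Type u} [CStarAlgebra C] {K : Type u} [NormedAddCommGroup K] [InnerProductSpace ℂ K]
    [CompleteSpace K] (ρ : C →⋆ₙₐ[ℂ] (K →L[ℂ] K)) : Submodule ℂ C where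
  carrier := {x | FiniteDimensional ℂ (LinearMap.range (ρ x).toLinearMap) ∧
    FiniteDimensional ℂ (LinearMap.range (ρ (star x)).toLinearMap)}
  add_mem' {a b} ha hb := by
    constructor
    · have h1 := ha.1
      have h2 := hb.1
      have h3 : LinearMap.range (ρ (a + b)).toLinearMap ≤
          LinearMap.range (ρ a).toLinearMap ⊔ LinearMap.range (ρ b).toLinearMap := by
        rintro _ ⟨x, rfl⟩
        rw [map_add]
        exact Submodule.add_mem_sup ⟨x, rfl⟩ ⟨x, rfl⟩
      exact Submodule.finiteDimensional_of_le h3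
    · have h1 := ha.2
      have h2 := hb.2
      have h3 : LinearMap.range (ρ (star (a + b))).toLinearMap ≤
          LinearMap.range (ρ (star a)).toLinearMap ⊔ LinearMap.range (ρ (star b)).toLinearMap := by
        rintro _ ⟨x, rfl⟩
        rw [star_add, map_add]
        exact Submodule.add_mem_sup ⟨x, rfl⟩ ⟨x, rfl⟩
      exact Submodule.finiteDimensional_of_le h3
  zero_mem' := by
    have h : LinearMap.range (ρ 0).toLinearMap = ⊥ := by
      rw [map_zero]
      exact LinearMap.range_zero
    constructor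
    · rw [h]; infer_instance
    · rw [star_zero, h]; infer_instance
  smul_mem' c x hx := by
    constructor
    · have h1 := hx.1
      have h3 : LinearMap.range (ρ (c • x)).toLinearMap ≤ LinearMap.range (ρ x).toLinearMap := by
        rintro _ ⟨y, rfl⟩
        rw [map_smul]
        exact ⟨c • y, by simp⟩
      exact Submodule.finiteDimensional_of_le h3
    · have h1 := hx.2
      have h3 : LinearMap.range (ρ (star (c • x))).toLinearMap ≤
          LinearMap.range (ρ (star x)).toLinearMap := by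
        rintro _ ⟨y, rfl⟩
        rw [star_smul, map_smul]
        exact ⟨star c • y, by simp⟩
      exact Submodule.finiteDimensional_of_le h3

theorem finrank_mul_left {K : Type u} [NormedAddCommGroup K] [InnerProductSpace ℂ K]
    (S T : K →L[ℂ] K) (h : FiniteDimensional ℂ (LinearMap.range T.toLinearMap)) :
    FiniteDimensional ℂ (LinearMap.range (S * T).toLinearMap) := by
  have h1 : LinearMap.range (S * T).toLinearMap =
      (LinearMap.range T.toLinearMap).map S.toLinearMap := by
    rw [← LinearMap.range_comp]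
    rfl
  rw [h1]
  infer_instance

theorem finrank_mul_right {K : Type u} [NormedAddCommGroup K] [InnerProductSpace ℂ K]
    (S T : K →L[ℂ] K) (h : FiniteDimensional ℂ (LinearMap.range S.toLinearMap)) :
    FiniteDimensional ℂ (LinearMap.range (S * T).toLinearMap) := by
  have h1 : LinearMap.range (S * T).toLinearMap ≤ LinearMap.range S.toLinearMap := by
    rintro _ ⟨x, rfl⟩
    exact ⟨T x, rfl⟩
  exact Submodule.finiteDimensional_of_le h1

/-- A unital C*-algebra has an irreducible representation such that every subset of the algebra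
whose image contains a rank one projection forces the Hilbert space to be finite dimensional. -/
theorem exists_irr (C : Type u) [CStarAlgebra C] [Nontrivial C] :
    ∃ (K : Type u) (_ : NormedAddCommGroup K)
    (_ : InnerProductSpace ℂ K) (_ : CompleteSpace K) (ρ : C →⋆ₙₐ[ℂ] (K →L[ℂ] K)) (ξ : K),
    ρ 1 = 1 ∧ ‖ξ‖ = 1 ∧
    (∀ U : Submodule ℂ K, IsClosed (U : Set K) → (∀ a, ∀ x ∈ U, ρ a x ∈ U) → U = ⊥ ∨ U = ⊤) ∧
    ((∃ c : C, ρ c ≠ 0 ∧ star (ρ c) = ρ c ∧
      FiniteDimensional ℂ (LinearMap.range (ρ c).toLinearMap)) → FiniteDimensional ℂ K) := by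
  obtain ⟨M, hM, hcl, hmax⟩ := exists_max (C := C)
  obtain ⟨K, i1, i2, i3, ρ, ξ, hρ1, hξ, hρM, hcomm⟩ := exists_repM hM hcl
  refine ⟨K, i1, i2, i3, ρ, ξ, hρ1, hξ, irred_of_comm ρ hcomm, ?_⟩
  rintro ⟨c, hc0, hcs, hcf⟩
  have hle : M ≤ FR ρ := by
    intro x hx
    have h : LinearMap.range (0 : K →L[ℂ] K).toLinearMap = ⊥ := LinearMap.range_zero
    constructor
    · rw [hρM x hx, h]; infer_instance
    · rw [hρM _ (hM.star_mem x hx), h]; infer_instance
  have hcFR : c ∈ FR ρ := by
    refine ⟨hcf, ?_⟩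
    rw [map_star, hcs]
    exact hcf
  have hcM : c ∉ M := fun h => hc0 (hρM c h)
  by_contra hinf
  have hPI : PI (FR ρ) := by
    constructor
    · intro a x hx
      constructor
      · rw [map_mul]
        exact finrank_mul_left _ _ hx.1
      · rw [star_mul, map_mul]
        exact finrank_mul_right _ _ hx.2
    · intro a x hx
      constructor
      · rw [map_mul]
        exact finrank_mul_right _ _ hx.1
      · rw [star_mul, map_mul]
        exact finrank_mul_left _ _ hx.2
    · intro x hx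
      exact ⟨hx.2, by rw [star_star]; exact hx.1⟩
    · intro h1
      apply hinf
      have h2 := h1.1
      rw [hρ1] at h2
      have h3 : LinearMap.range (1 : K →L[ℂ] K).toLinearMap = ⊤ := LinearMap.range_id
      rw [h3] at h2
      exact Submodule.topEquiv.finiteDimensional
  exact hcM (hmax _ hPI hle hcFR)

end Q89.LT
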