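import Pool.Agent.Q89.LT.NotTI
import Pool.Agent.W658.TIDefs

/-!
# Algebras with two almost orthogonal almost isometries are not of type I, second part
-/

set_option autoImplicit false

open scoped ComplexOrder InnerProductSpace

noncomputable section

namespace Q89.LT

open Pool.Agent.W658.TypeI

section

variable {E : Type} [CStarAlgebra E]

/-- the closure of the range -/
def Dn {B : Type} [NonUnitalRing B] [StarRing B] [Module ℂ B] [IsScalarTower ℂ B B]
    [SMulCommClass ℂ B B] [StarModule ℂ B] (ι : B →⋆ₙₐ[ℂ] E) : NonUnitalStarSubalgebra ℂ E :=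
  (NonUnitalStarAlgHom.range ι).topologicalClosure

variable {B : Type} [NonUnitalRing B] [StarRing B] [Module ℂ B] [IsScalarTower ℂ B B]
    [SMulCommClass ℂ B B] [StarModule ℂ B] (ι : B →⋆ₙₐ[ℂ] E)

theorem mem_Dn (b : B) : ι b ∈ Dn ι :=
  NonUnitalStarSubalgebra.le_topologicalClosure _ ⟨b, rfl⟩

theorem isClosed_Dn : IsClosed (Dn ι : Set E) :=
  NonUnitalStarSubalgebra.isClosed_topologicalClosure _

theorem one_mem_Dn (h : E) (hh : h ∈ Dn ι) (h1 : ‖1 - h‖ < 1) : (1 : E) ∈ Dn ι := by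
  have h2 : ∀ k : ℕ, 1 - (1 - h) ^ k ∈ Dn ι := by
    intro k
    induction k with
    | zero => rw [pow_zero, sub_self]; exact zero_mem _
    | succ k ih =>
      have e : 1 - (1 - h) ^ (k + 1) = (1 - (1 - h) ^ k) + h - (1 - (1 - h) ^ k) * h := by
        rw [pow_succ]
        noncomm_ring
      rw [e]
      exact sub_mem (add_mem ih hh) (mul_mem ih hh)
  have h3 : Filter.Tendsto (fun k : ℕ => 1 - (1 - h) ^ k) Filter.atTop (nhds (1 - 0)) :=
    tendsto_const_nhds.sub (tendsto_pow_atTop_nhds_zero_of_norm_lt_one h1)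
  rw [sub_zero] at h3
  exact (isClosed_Dn ι).mem_of_tendsto h3 (Filter.Eventually.of_forall h2)

/-- the closure of the range as a unital subalgebra -/
def Du (h1 : (1 : E) ∈ Dn ι) : StarSubalgebra ℂ E where
  carrier := Dn ι
  mul_mem' := fun ha hb => mul_mem ha hb
  add_mem' := fun ha hb => add_mem ha hb
  algebraMap_mem' := fun c => by
    rw [Algebra.algebraMap_eq_smul_one]
    exact SMulMemClass.smul_mem c h1
  star_mem' := fun ha => star_mem ha

theorem mem_Du (h1 : (1 : E) ∈ Dn ι) (x : E) : x ∈ Du ι h1 ↔ x ∈ Dn ι := Iff.rfl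

/-- the corestriction -/
def cor (h1 : (1 : E) ∈ Dn ι) : B →⋆ₙₐ[ℂ] Du ι h1 where
  toFun b := ⟨ι b, mem_Dn ι b⟩
  map_smul' c b := by
    apply Subtype.ext
    exact map_smul ι c b
  map_zero' := by
    apply Subtype.ext
    exact map_zero ι
  map_add' a b := by
    apply Subtype.ext
    exact map_add ι a b
  map_mul' a b := by
    apply Subtype.ext
    exact map_mul ι a b
  map_star' a := by
    apply Subtype.ext
    exact map_star ι a

theorem approx1 (x s : E) (hs : star s * s = 1) (hx : ‖x - s‖ ≤ 1 / 10) :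
    ‖star x * x - 1‖ ≤ 21 / 100 := by
  by_cases hE : Nontrivial E
  · have hs1 : ‖s‖ = 1 := by
      have h1 : ‖s‖ * ‖s‖ = 1 := by rw [← CStarRing.norm_star_mul_self, hs, CStarRing.norm_one]
      nlinarith [norm_nonneg s]
    have e : star x * x - 1 = star (x - s) * (x - s) + star (x - s) * s + star s * (x - s) := by
      rw [← hs, star_sub]
      noncomm_ring
    rw [e]
    have a1 : ‖star (x - s) * (x - s)‖ ≤ 1 / 10 * (1 / 10) := by
      rw [CStarRing.norm_star_mul_self]
      exact mul_le_mul hx hx (norm_nonneg _) (by norm_num)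
    have a2 : ‖star (x - s) * s‖ ≤ 1 / 10 := by
      refine (norm_mul_le _ _).trans ?_
      rw [norm_star, hs1, mul_one]
      exact hx
    have a3 : ‖star s * (x - s)‖ ≤ 1 / 10 := by
      refine (norm_mul_le _ _).trans ?_
      rw [norm_star, hs1, one_mul]
      exact hx
    calc _ ≤ ‖star (x - s) * (x - s)‖ + ‖star (x - s) * s‖ + ‖star s * (x - s)‖ := norm_add₃_le
      _ ≤ 1 / 10 * (1 / 10) + 1 / 10 + 1 / 10 := by linarith
      _ = 21 / 100 := by norm_num
  · rw [not_nontrivial_iff_subsingleton] at hE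
    rw [Subsingleton.elim (star x * x - 1) 0, norm_zero]
    norm_num

theorem approx2 (x y s t : E) (hs : star s * s = 1) (ht : star t * t = 1) (hst : star s * t = 0)
    (hx : ‖x - s‖ ≤ 1 / 10) (hy : ‖y - t‖ ≤ 1 / 10) :
    ‖star x * y‖ ≤ 21 / 100 := by
  by_cases hE : Nontrivial E
  · have hn : ∀ s : E, star s * s = 1 → ‖s‖ = 1 := by
      intro s hs
      have h1 : ‖s‖ * ‖s‖ = 1 := by rw [← CStarRing.norm_star_mul_self, hs, CStarRing.norm_one]
      nlinarith [norm_nonneg s]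
    have hs1 := hn s hs
    have ht1 := hn t ht
    have e : star x * y = star (x - s) * (y - t) + star (x - s) * t + star s * (y - t) := by
      have : star x * y = star (x - s) * (y - t) + star (x - s) * t + star s * (y - t)
        + star s * t := by
        rw [star_sub]
        noncomm_ring
      rw [this, hst, add_zero]
    rw [e]
    have a1 : ‖star (x - s) * (y - t)‖ ≤ 1 / 10 * (1 / 10) := by
      refine (norm_mul_le _ _).trans ?_
      rw [norm_star]
      exact mul_le_mul hx hy (norm_nonneg _) (by norm_num)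
    have a2 : ‖star (x - s) * t‖ ≤ 1 / 10 := by
      refine (norm_mul_le _ _).trans ?_
      rw [norm_star, ht1, mul_one]
      exact hx
    have a3 : ‖star s * (y - t)‖ ≤ 1 / 10 := by
      refine (norm_mul_le _ _).trans ?_
      rw [norm_star, hs1, one_mul]
      exact hy
    calc _ ≤ ‖star (x - s) * (y - t)‖ + ‖star (x - s) * t‖ + ‖star s * (y - t)‖ := norm_add₃_le
      _ ≤ 1 / 10 * (1 / 10) + 1 / 10 + 1 / 10 := by linarith
      _ = 21 / 100 := by norm_num
  · rw [not_nontrivial_iff_subsingleton] at hE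
    rw [Subsingleton.elim (star x * y) 0, norm_zero]
    norm_num

/-- **Main lemma.** -/
theorem not_typeI [Nontrivial E] (s t : E) (hs : star s * s = 1) (ht : star t * t = 1)
    (hst : star s * t = 0) (x y : B) (hx : ‖ι x - s‖ ≤ 1 / 10) (hy : ‖ι y - t‖ ≤ 1 / 10) :
    ¬ IsTypeI B := by
  intro hB
  have hxx : ‖star (ι x) * ι x - 1‖ ≤ 21 / 100 := approx1 _ _ hs hx
  have hyy : ‖star (ι y) * ι y - 1‖ ≤ 21 / 100 := approx1 _ _ ht hy
  have hxy : ‖star (ι x) * ι y‖ ≤ 21 / 100 := approx2 _ _ _ _ hs ht hst hx hy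
  have h1 : (1 : E) ∈ Dn ι := by
    refine one_mem_Dn ι (star (ι x) * ι x) (mul_mem (star_mem (mem_Dn ι x)) (mem_Dn ι x)) ?_
    rw [norm_sub_rev]
    linarith
  have hcl : IsClosed (Du ι h1 : Set E) := isClosed_Dn ι
  let _ : CStarAlgebra (Du ι h1) := StarSubalgebra.cstarAlgebra (Du ι h1) (h_closed := hcl)
  have hnt : Nontrivial (Du ι h1) := inferInstance
  obtain ⟨K, i1, i2, i3, ρ, ξ, hρ1, hξ, hirr, hfd⟩ := exists_irr (Du ι h1)
  have hρn : ∀ d, ‖ρ d‖ ≤ ‖d‖ := fun d => NonUnitalStarAlgHom.norm_apply_le ρ d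
  set ι' := cor ι h1 with hι'
  have hdn : ∀ b : B, ((ι' b : Du ι h1) : E) = ι b := fun b => rfl
  have hdxx : ‖star (ι' x) * ι' x - 1‖ ≤ 21 / 100 := hxx
  have hdyy : ‖star (ι' y) * ι' y - 1‖ ≤ 21 / 100 := hyy
  have hdxy : ‖star (ι' x) * ι' y‖ ≤ 21 / 100 := hxy
  have hKnt : Nontrivial K := ⟨ξ, 0, fun h => by rw [h, norm_zero] at hξ; exact zero_ne_one hξ⟩
  have low : ∀ z : B, ‖star (ι' z) * ι' z - 1‖ ≤ 21 / 100 → ∀ v : K, 8 / 10 * ‖v‖ ≤ ‖ρ (ι' z) v‖ := by
    intro z hz v
    have e1 : ‖star (ρ (ι' z)) * ρ (ι' z) - 1‖ ≤ 21 / 100 := by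
      have : star (ρ (ι' z)) * ρ (ι' z) - 1 = ρ (star (ι' z) * ι' z - 1) := by
        rw [map_sub, map_mul, map_star, hρ1]
      rw [this]
      exact (hρn _).trans hz
    have e2 : ⟪v, (star (ρ (ι' z)) * ρ (ι' z)) v⟫_ℂ = ((‖ρ (ι' z) v‖ ^ 2 : ℝ) : ℂ) := by
      show ⟪v, (star (ρ (ι' z))) (ρ (ι' z) v)⟫_ℂ = _
      rw [ContinuousLinearMap.star_eq_adjoint, ContinuousLinearMap.adjoint_inner_right,
        inner_self_eq_norm_sq_to_K]
      push_cast
      rfl
    have e3 : ⟪v, v⟫_ℂ = ((‖v‖ ^ 2 : ℝ) : ℂ) := by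
      rw [inner_self_eq_norm_sq_to_K]
      push_cast
      rfl
    have e4 : |‖ρ (ι' z) v‖ ^ 2 - ‖v‖ ^ 2| ≤ 21 / 100 * ‖v‖ ^ 2 := by
      have e5 : ((‖ρ (ι' z) v‖ ^ 2 - ‖v‖ ^ 2 : ℝ) : ℂ) =
          ⟪v, (star (ρ (ι' z)) * ρ (ι' z) - 1) v⟫_ℂ := by
        rw [sub_apply, inner_sub_right, e2, one_apply_eq_self, e3]
        push_cast
        rfl
      have e6 : |‖ρ (ι' z) v‖ ^ 2 - ‖v‖ ^ 2| = ‖((‖ρ (ι' z) v‖ ^ 2 - ‖v‖ ^ 2 : ℝ) : ℂ)‖ := by
        rw [Complex.norm_real, Real.norm_eq_abs]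
      rw [e6, e5]
      refine (norm_inner_le_norm _ _).trans ?_
      have e7 := (star (ρ (ι' z)) * ρ (ι' z) - 1).le_of_opNorm_le e1 v
      nlinarith [norm_nonneg v]
    have e8 := (abs_le.1 e4).1
    have h9 : (8 / 10 * ‖v‖) ^ 2 ≤ ‖ρ (ι' z) v‖ ^ 2 := by nlinarith [sq_nonneg ‖v‖]
    exact (pow_le_pow_iff_left₀ (by positivity) (norm_nonneg _) two_ne_zero).1 h9
  have hπ : IsIrreducible (ρ.comp ι') := by
    constructor
    · intro h0
      have h2 := low x hdxx ξ
      have h3 : ρ (ι' x) = 0 := congrArg (fun f : B →⋆ₙₐ[ℂ] (K →L[ℂ] K) => f x) h0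
      rw [h3, zero_apply, norm_zero, hξ] at h2
      norm_num at h2
    · intro U hU hinv
      refine hirr U hU ?_
      rintro ⟨d, hd⟩ v hv
      -- approximate
      have hclU : IsClosed {d : Du ι h1 | ρ d v ∈ U} := by
        have hc : Continuous fun d : Du ι h1 => ρ d v := by
          have hc1 : Continuous fun d : Du ι h1 => ρ d := by
            refine (AddMonoidHomClass.lipschitz_of_bound ρ 1 fun d => ?_).continuous
            rw [one_mul]
            exact hρn d
          exact hc1.clm_apply continuous_const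
        exact hU.preimage hc
      have hdcl : d ∈ closure (Set.range ι) := hd
      rw [Metric.mem_closure_iff] at hdcl
      have hmem : (⟨d, hd⟩ : Du ι h1) ∈ closure {d : Du ι h1 | ρ d v ∈ U} := by
        rw [Metric.mem_closure_iff]
        intro ε hε
        obtain ⟨_, ⟨b, rfl⟩, hb⟩ := hdcl ε hε
        exact ⟨ι' b, hinv b v hv, hb⟩
      rw [hclU.closure_eq] at hmem
      exact hmem
  -- the rank one projection
  obtain ⟨T, hT⟩ : ∃ T : K →L[ℂ] K, T = (Submodule.span ℂ {ξ}).starProjection := ⟨_, rfl⟩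
  have hTξ : T ξ = ξ := by
    rw [hT]
    exact Submodule.starProjection_eq_self_iff.2 (Submodule.mem_span_singleton_self ξ)
  have hTs : star T = T := by
    rw [hT]
    exact (isSelfAdjoint_starProjection (Submodule.span ℂ {ξ})).star_eq
  have hTr : FiniteDimensional ℂ (LinearMap.range T.toLinearMap) := by
    have h2 : LinearMap.range T.toLinearMap ≤ Submodule.span ℂ {ξ} := by
      rintro _ ⟨v, rfl⟩
      rw [hT]
      exact Submodule.starProjection_apply_mem _ v
    exact Submodule.finiteDimensional_of_le h2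
  have hTc : IsCompactOperator T := by
    have h2 : ProperSpace (Submodule.span ℂ {ξ}) := FiniteDimensional.proper ℂ _
    have h3 : IsCompactOperator (Submodule.span ℂ {ξ}).orthogonalProjectionOnto :=
      isCompactOperator_of_locallyCompactSpace_dom _
    have h4 := h3.clm_comp (Submodule.span ℂ {ξ}).subtypeL
    rw [hT]
    exact h4
  obtain ⟨b, hb⟩ := hB K (ρ.comp ι') hπ T hTc
  have hfin := hfd ⟨ι' b, by
    intro h0
    have h2 : ρ (ι' b) ξ = ξ := by
      have : ρ (ι' b) = T := hb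
      rw [this, hTξ]
    rw [h0, zero_apply] at h2
    rw [← h2, norm_zero] at hξ
    exact zero_ne_one hξ, by
    have : ρ (ι' b) = T := hb
    rw [this, hTs], by
    have : ρ (ι' b) = T := hb
    rw [this]
    exact hTr⟩
  have hz := no_two (ρ (ι' x)) (ρ (ι' y)) (8 / 10) (21 / 100) (by norm_num) (by norm_num)
    (low x hdxx) (low y hdyy) (by
      intro v
      have h2 : star (ρ (ι' x)) (ρ (ι' y) v) = ρ (star (ι' x) * ι' y) v := by
        rw [map_mul, map_star]
        rfl
      rw [h2]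
      exact (ρ (star (ι' x) * ι' y)).le_of_opNorm_le ((hρn _).trans hdxy) v) ξ
  rw [hz, norm_zero] at hξ
  exact zero_ne_one hξ

end

end Q89.LT
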